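import Pool.Agent.H17.CX.Targets

/-!
# MP_70ba79_ag, VSB: the forms with a regular fraction are a subspace
-/

set_option autoImplicit false

open MvPolynomial SC Pool.Agent.H27.LV
open Pool.Agent.H92.SF Pool.Agent.H3.SF Pool.Agent.H17.SD Pool.Agent.H17.SFG Pool.Agent.H17.CX

namespace Pool.Agent.H56.CNX

theorem pf_VSB : T_VSB := by
  intro k F σ _ _ _ X G Q hQ t j
  refine ⟨{ carrier := Vt X G Q t j, zero_mem' := ?_, add_mem' := ?_, smul_mem' := ?_ }, rfl⟩
  · rintro x y ⟨a, p, b, ha, hx, hp, he⟩ ⟨a', p', b', ha', hy, hp', he'⟩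
    refine ⟨a + a', p * p', p' * b + p * b', ha.add ha', ?_, fun h => ?_, ?_⟩
    · rw [map_add, hx, hy]
    · rcases hQ.mem_or_mem h with h | h
      · exact hp h
      · exact hp' h
    · simp only [map_mul, map_add, map_pow] at he he' ⊢
      linear_combination (aeval X p') * he + (aeval X p) * he'
  · exact ⟨0, 1, 0, isHomogeneous_zero _ _ _, map_zero _,
      fun h => hQ.ne_top ((Ideal.eq_top_iff_one Q).2 h), by simp⟩
  · rintro c x ⟨a, p, b, ha, hx, hp, he⟩
    refine ⟨MvPolynomial.C c * a, p, MvPolynomial.C c * b, ?_, ?_, hp, ?_⟩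
    · have h := (isHomogeneous_C σ c).mul ha
      rwa [zero_add] at h
    · rw [map_mul, aeval_C, hx, Algebra.smul_def]
    · simp only [map_mul, map_pow] at he ⊢
      linear_combination (aeval X (MvPolynomial.C c)) * he

end Pool.Agent.H56.CNX
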